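import Mathlib
import Pool.Agent.helper64.OT.SpecW

/-!
# Project OT, row W2A: the quadratic character of a product of two quadratic polynomials
-/

set_option autoImplicit false

namespace Pool.Agent.OT

open Finset Polynomial Pool.Agent.helper82.Weil Pool.Agent.helper82.KL

/-- the real valued quadratic character -/
noncomputable def W2A_q {p : ℕ} [Fact p.Prime] (x : ZMod p) : ℝ := ((quadraticChar (ZMod p) x : ℤ) : ℝ)

theorem W2A_q_mul {p : ℕ} [Fact p.Prime] (x y : ZMod p) : W2A_q (x * y) = W2A_q x * W2A_q y := by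
  unfold W2A_q
  rw [map_mul]
  push_cast
  ring

theorem W2A_q_zero {p : ℕ} [Fact p.Prime] : W2A_q (0 : ZMod p) = 0 := by
  unfold W2A_q
  simp

theorem W2A_q_sq {p : ℕ} [Fact p.Prime] {x : ZMod p} (hx : x ≠ 0) : W2A_q (x ^ 2) = 1 := by
  unfold W2A_q
  rw [quadraticChar_sq_one' hx]
  simp

theorem W2A_q_abs {p : ℕ} [Fact p.Prime] (x : ZMod p) : |W2A_q x| ≤ 1 := by
  unfold W2A_q
  by_cases hx : x = 0
  · subst hx
    simp
  · rcases quadraticChar_dichotomy hx with h | h <;> rw [h] <;> simp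

theorem W2A_one_le {p : ℕ} [Fact p.Prime] : (1 : ℝ) ≤ Real.sqrt p := by
  rw [← Real.sqrt_one]
  apply Real.sqrt_le_sqrt
  have := (Fact.out : p.Prime).one_lt.le
  exact_mod_cast this

/-- a square factor vanishing at `α` removes the term `x = α` -/
theorem W2A_remove {p : ℕ} [Fact p.Prime] (α : ZMod p) (R : ZMod p → ZMod p)
    (hR : |∑ x : ZMod p, W2A_q (R x)| ≤ 1) :
    |∑ x : ZMod p, W2A_q ((x - α) ^ 2 * R x)| ≤ 2 := by
  have h1 : ∀ x : ZMod p, W2A_q ((x - α) ^ 2 * R x) = W2A_q (R x) - (if x = α then W2A_q (R α) else 0) := by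
    intro x
    by_cases hx : x = α
    · subst hx
      simp [W2A_q_zero]
    · rw [W2A_q_mul, W2A_q_sq (sub_ne_zero.mpr hx), if_neg hx]
      ring
  rw [sum_congr rfl fun x _ => h1 x, sum_sub_distrib, sum_ite_eq' univ α]
  simp only [mem_univ, if_true]
  have h2 := W2A_q_abs (R α)
  have h3 := abs_sub (∑ x : ZMod p, W2A_q (R x)) (W2A_q (R α))
  linarith

/-- first polynomial of discriminant zero -/
theorem W2A_degen (hQD1 : QD1_stmt) (p : ℕ) [Fact p.Prime] (hp : p ≠ 2) (a b c a' b' c' : ZMod p)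
    (h : b ^ 2 - 4 * a * c = 0) (h' : b' ^ 2 - 4 * a' * c' ≠ 0) :
    |∑ x : ZMod p, W2A_q ((a * x ^ 2 + b * x + c) * (a' * x ^ 2 + b' * x + c'))| ≤ 2 := by
  have hQ : |∑ x : ZMod p, W2A_q (a' * x ^ 2 + b' * x + c')| ≤ 1 := hQD1 p hp a' b' c' h'
  by_cases ha : a = 0
  · subst ha
    have hb : b = 0 := by
      have : b ^ 2 = 0 := by linear_combination h
      exact pow_eq_zero_iff (two_ne_zero) |>.mp this
    subst hb
    have h1 : ∀ x : ZMod p, W2A_q ((0 * x ^ 2 + 0 * x + c) * (a' * x ^ 2 + b' * x + c')) =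
        W2A_q c * W2A_q (a' * x ^ 2 + b' * x + c') := by
      intro x
      rw [← W2A_q_mul]
      congr 1
      ring
    rw [sum_congr rfl fun x _ => h1 x, ← mul_sum, abs_mul]
    have h2 := W2A_q_abs c
    have h3 := abs_nonneg (∑ x : ZMod p, W2A_q (a' * x ^ 2 + b' * x + c'))
    nlinarith [abs_nonneg (W2A_q c)]
  · have h2 : (2 : ZMod p) ≠ 0 := by
      intro h2
      have h3 : ((2 : ℕ) : ZMod p) = 0 := by exact_mod_cast h2
      rw [ZMod.natCast_eq_zero_iff] at h3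
      exact hp ((Nat.prime_dvd_prime_iff_eq Fact.out Nat.prime_two).mp h3)
    obtain ⟨α, hα⟩ : ∃ α : ZMod p, b = -(2 * a * α) := ⟨-b / (2 * a), by field_simp⟩
    have hc : c = a * α ^ 2 := by
      have h3 : 4 * a * (a * α ^ 2 - c) = 0 := by
        rw [hα] at h
        linear_combination h
      have h4 : (4 : ZMod p) * a ≠ 0 := by
        have : (4 : ZMod p) = 2 * 2 := by norm_num
        rw [this]
        exact mul_ne_zero (mul_ne_zero h2 h2) ha
      have h5 := (mul_eq_zero.mp h3).resolve_left h4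
      linear_combination -h5
    have h1 : ∀ x : ZMod p, W2A_q ((a * x ^ 2 + b * x + c) * (a' * x ^ 2 + b' * x + c')) =
        W2A_q a * W2A_q ((x - α) ^ 2 * (a' * x ^ 2 + b' * x + c')) := by
      intro x
      rw [← W2A_q_mul]
      congr 1
      rw [hα, hc]
      ring
    rw [sum_congr rfl fun x _ => h1 x, ← mul_sum, abs_mul]
    have h3 := W2A_remove α (fun x => a' * x ^ 2 + b' * x + c') hQ
    have h4 := W2A_q_abs a
    have h5 := abs_nonneg (∑ x : ZMod p, W2A_q ((x - α) ^ 2 * (a' * x ^ 2 + b' * x + c')))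
    nlinarith [abs_nonneg (W2A_q a)]

/-- common root -/
theorem W2A_root (hQD1 : QD1_stmt) (p : ℕ) [Fact p.Prime] (hp : p ≠ 2) (a b c a' b' c' α : ZMod p)
    (h : b ^ 2 - 4 * a * c ≠ 0) (h' : b' ^ 2 - 4 * a' * c' ≠ 0)
    (hκ : ¬ ∃ κ : ZMod p, κ ≠ 0 ∧ a' = κ * a ∧ b' = κ * b ∧ c' = κ * c)
    (hr : a * α ^ 2 + b * α + c = 0) (hr' : a' * α ^ 2 + b' * α + c' = 0) :
    |∑ x : ZMod p, W2A_q ((a * x ^ 2 + b * x + c) * (a' * x ^ 2 + b' * x + c'))| ≤ 2 := by
  obtain ⟨e, he⟩ : ∃ e : ZMod p, e = a * α + b := ⟨_, rfl⟩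
  obtain ⟨e', he'⟩ : ∃ e' : ZMod p, e' = a' * α + b' := ⟨_, rfl⟩
  have hb : b = e - a * α := by linear_combination -he
  have hb' : b' = e' - a' * α := by linear_combination -he'
  have hc : c = -(e * α) := by linear_combination hr + α * he
  have hc' : c' = -(e' * α) := by linear_combination hr' + α * he'
  have hne : a * e' - a' * e ≠ 0 := by
    intro h0
    apply hκ
    by_cases ha : a = 0
    · subst ha
      have he0 : e ≠ 0 := by
        intro h1
        apply h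
        rw [hb, hc, h1]
        ring
      have ha' : a' = 0 := by
        have h1 : a' * e = 0 := by linear_combination -h0
        exact (mul_eq_zero.mp h1).resolve_right he0
      have he0' : e' ≠ 0 := by
        intro h1
        apply h'
        rw [hb', hc', h1, ha']
        ring
      refine ⟨e' / e, div_ne_zero he0' he0, ?_, ?_, ?_⟩
      · rw [ha']
        ring
      · rw [hb, hb', ha']
        field_simp
        ring
      · rw [hc, hc']
        field_simp
    · have he1 : e' = a' / a * e := by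
        field_simp
        linear_combination h0
      have ha' : a' ≠ 0 := by
        intro h1
        apply h'
        rw [hb', hc', he1, h1]
        ring
      refine ⟨a' / a, div_ne_zero ha' ha, ?_, ?_, ?_⟩
      · field_simp
      · rw [hb', he1, hb]
        field_simp
      · rw [hc', he1, hc]
        field_simp
  have hD : (a * e' + a' * e) ^ 2 - 4 * (a * a') * (e * e') ≠ 0 := by
    have h1 : (a * e' + a' * e) ^ 2 - 4 * (a * a') * (e * e') = (a * e' - a' * e) ^ 2 := by ring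
    rw [h1]
    exact pow_ne_zero 2 hne
  have hR : |∑ x : ZMod p, W2A_q (a * a' * x ^ 2 + (a * e' + a' * e) * x + e * e')| ≤ 1 :=
    hQD1 p hp _ _ _ hD
  have h1 : ∀ x : ZMod p, W2A_q ((a * x ^ 2 + b * x + c) * (a' * x ^ 2 + b' * x + c')) =
      W2A_q ((x - α) ^ 2 * (a * a' * x ^ 2 + (a * e' + a' * e) * x + e * e')) := by
    intro x
    congr 1
    rw [hb, hc, hb', hc']
    ring
  rw [sum_congr rfl fun x _ => h1 x]
  exact W2A_remove α (fun x => a * a' * x ^ 2 + (a * e' + a' * e) * x + e * e') hR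

/-- a quadratic polynomial of nonzero discriminant is separable -/
theorem W2A_sep {p : ℕ} [Fact p.Prime] {a b c : ZMod p} (h : b ^ 2 - 4 * a * c ≠ 0) :
    (C a * X ^ 2 + C b * X + C c : (ZMod p)[X]).Separable := by
  have hd : derivative (C a * X ^ 2 + C b * X + C c : (ZMod p)[X]) = C (2 * a) * X + C b := by
    simp only [derivative_add, derivative_mul, derivative_C, derivative_X_pow, derivative_X, map_mul]
    simp
    ring
  unfold Polynomial.Separable
  rw [hd]
  refine ⟨C (-(4 * a) / (b ^ 2 - 4 * a * c)), C (1 / (b ^ 2 - 4 * a * c)) * (C (2 * a) * X + C b), ?_⟩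
  have h1 : (C (-(4 * a) / (b ^ 2 - 4 * a * c)) : (ZMod p)[X]) = C (-(4 * a)) * C (1 / (b ^ 2 - 4 * a * c)) := by
    rw [← C_mul]
    congr 1
    ring
  have h2 : (C (1 / (b ^ 2 - 4 * a * c)) : (ZMod p)[X]) * C (b ^ 2 - 4 * a * c) = 1 := by
    rw [← C_mul, one_div_mul_cancel h, C_1]
  rw [h1]
  refine Eq.trans ?_ h2
  simp only [C_mul, C_neg, C_sub, C_pow, C_ofNat]
  ring

theorem W2A_natDegree_le {p : ℕ} [Fact p.Prime] (a b c : ZMod p) :
    (C a * X ^ 2 + C b * X + C c : (ZMod p)[X]).natDegree ≤ 2 := natDegree_quadratic_le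

theorem W2A_natDegree_pos {p : ℕ} [Fact p.Prime] {a b c : ZMod p} (h : b ^ 2 - 4 * a * c ≠ 0) :
    0 < (C a * X ^ 2 + C b * X + C c : (ZMod p)[X]).natDegree := by
  by_contra h0
  have h1 : (C a * X ^ 2 + C b * X + C c : (ZMod p)[X]).natDegree = 0 := by omega
  have h2 : (C a * X ^ 2 + C b * X + C c : (ZMod p)[X]).coeff 2 = 0 :=
    coeff_eq_zero_of_natDegree_lt (by omega)
  have h3 : (C a * X ^ 2 + C b * X + C c : (ZMod p)[X]).coeff 1 = 0 :=
    coeff_eq_zero_of_natDegree_lt (by omega)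
  simp [coeff_X, coeff_C] at h2 h3
  apply h
  rw [h2, h3]
  ring

/-- coprime case -/
theorem W2A_cop (hRRW : RRW_stmt) (p : ℕ) [Fact p.Prime] (hp : p ≠ 2) (a b c a' b' c' : ZMod p)
    (h : b ^ 2 - 4 * a * c ≠ 0) (h' : b' ^ 2 - 4 * a' * c' ≠ 0)
    (hcop : IsCoprime (C a * X ^ 2 + C b * X + C c : (ZMod p)[X]) (C a' * X ^ 2 + C b' * X + C c')) :
    |∑ x : ZMod p, W2A_q ((a * x ^ 2 + b * x + c) * (a' * x ^ 2 + b' * x + c'))| ≤ 4 * Real.sqrt p := by
  obtain ⟨P, hP⟩ : ∃ P : (ZMod p)[X], P = C a * X ^ 2 + C b * X + C c := ⟨_, rfl⟩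
  obtain ⟨Q, hQ⟩ : ∃ Q : (ZMod p)[X], Q = C a' * X ^ 2 + C b' * X + C c' := ⟨_, rfl⟩
  have hPs : P.Separable := by rw [hP]; exact W2A_sep h
  have hQs : Q.Separable := by rw [hQ]; exact W2A_sep h'
  have hPd : P.natDegree ≤ 2 := by rw [hP]; exact W2A_natDegree_le a b c
  have hQd : Q.natDegree ≤ 2 := by rw [hQ]; exact W2A_natDegree_le a' b' c'
  have hPp : 0 < P.natDegree := by rw [hP]; exact W2A_natDegree_pos h
  have hQp : 0 < Q.natDegree := by rw [hQ]; exact W2A_natDegree_pos h'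
  rw [← hP, ← hQ] at hcop
  have hP0 : P ≠ 0 := by rintro rfl; simp at hPp
  have hQ0 : Q ≠ 0 := by rintro rfl; simp at hQp
  have hFs : (P * Q).Separable := hPs.mul hQs hcop
  have hF0 : P * Q ≠ 0 := mul_ne_zero hP0 hQ0
  have hFd : (P * Q).natDegree = P.natDegree + Q.natDegree := natDegree_mul hP0 hQ0
  have hlc : (P * Q).leadingCoeff ≠ 0 := leadingCoeff_ne_zero.mpr hF0
  obtain ⟨f, hf⟩ : ∃ f : (ZMod p)[X], f = P * Q * C (P * Q).leadingCoeff⁻¹ := ⟨_, rfl⟩
  have hfm : f.Monic := by rw [hf]; exact monic_mul_leadingCoeff_inv hF0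
  have hFf : P * Q = f * C (P * Q).leadingCoeff := by
    rw [hf, mul_assoc, ← C_mul, inv_mul_cancel₀ hlc, C_1, mul_one]
  have hfs : f.Separable := hFs.of_dvd ⟨_, hFf⟩
  have hfd : f.natDegree = (P * Q).natDegree := by
    rw [hf]
    exact natDegree_mul_leadingCoeff_inv _ hF0
  obtain ⟨χ, hχ⟩ : ∃ χ : MulChar (ZMod p) ℂ, χ = (quadraticChar (ZMod p)).ringHomComp (Int.castRingHom ℂ) := ⟨_, rfl⟩
  have hχv : ∀ x : ZMod p, χ x = ((W2A_q x : ℝ) : ℂ) := by
    intro x
    rw [hχ]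
    simp [W2A_q, MulChar.ringHomComp_apply]
  have hF2 : ringChar (ZMod p) ≠ 2 := by rw [ZMod.ringChar_zmod_n]; exact hp
  have hχ1 : χ ≠ 1 := by
    intro h1
    obtain ⟨x, hx⟩ := quadraticChar_exists_neg_one hF2
    have hx0 : x ≠ 0 := by
      rintro rfl
      simp at hx
    have h2 := hχv x
    rw [h1, MulChar.one_apply (isUnit_iff_ne_zero.mpr hx0)] at h2
    have h3 : W2A_q x = -1 := by simp [W2A_q, hx]
    rw [h3] at h2
    norm_num at h2
  have hb := hRRW p χ f hχ1 hfm hfs (by omega)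
  have hsum : ((∑ x : ZMod p, W2A_q ((a * x ^ 2 + b * x + c) * (a' * x ^ 2 + b' * x + c')) : ℝ) : ℂ) =
      χ (P * Q).leadingCoeff * ∑ x : ZMod p, χ (f.eval x) := by
    rw [mul_sum]
    push_cast
    refine sum_congr rfl fun x _ => ?_
    rw [← hχv, ← map_mul]
    congr 1
    have h1 : (P * Q).eval x = (a * x ^ 2 + b * x + c) * (a' * x ^ 2 + b' * x + c') := by
      rw [hP, hQ]
      simp
    rw [← h1, hFf]
    simp only [eval_mul, eval_C]
    rw [← hFf]
    ring
  have hn : |∑ x : ZMod p, W2A_q ((a * x ^ 2 + b * x + c) * (a' * x ^ 2 + b' * x + c'))| =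
      ‖χ (P * Q).leadingCoeff‖ * ‖∑ x : ZMod p, χ (f.eval x)‖ := by
    rw [← norm_mul, ← hsum, Complex.norm_real, Real.norm_eq_abs]
  rw [hn]
  have h1 : ‖χ (P * Q).leadingCoeff‖ ≤ 1 := by
    rw [hχv, Complex.norm_real, Real.norm_eq_abs]
    exact W2A_q_abs _
  have h2 : (f.natDegree : ℝ) ≤ 4 := by
    have : f.natDegree ≤ 4 := by omega
    exact_mod_cast this
  have h3 : (0 : ℝ) ≤ Real.sqrt p := Real.sqrt_nonneg _
  have h4 : ‖∑ x : ZMod p, χ (f.eval x)‖ ≤ 4 * Real.sqrt p := by nlinarith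
  have h5 := norm_nonneg (∑ x : ZMod p, χ (f.eval x))
  nlinarith [norm_nonneg (χ (P * Q).leadingCoeff)]

theorem W2A (hRRW : RRW_stmt) (hQD1 : QD1_stmt) (hCPQ : CPQ_stmt) : W2A_stmt := by
  intro p _ hp a b c a' b' c' hnd hκ
  have h1 := W2A_one_le (p := p)
  change |∑ x : ZMod p, W2A_q ((a * x ^ 2 + b * x + c) * (a' * x ^ 2 + b' * x + c'))| ≤ 4 * Real.sqrt p
  by_cases hD : b ^ 2 - 4 * a * c = 0
  · by_cases hD' : b' ^ 2 - 4 * a' * c' = 0
    · exact absurd ⟨hD, hD'⟩ hnd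
    · have := W2A_degen hQD1 p hp a b c a' b' c' hD hD'
      linarith
  · by_cases hD' : b' ^ 2 - 4 * a' * c' = 0
    · have h2 := W2A_degen hQD1 p hp a' b' c' a b c hD' hD
      have h3 : ∑ x : ZMod p, W2A_q ((a * x ^ 2 + b * x + c) * (a' * x ^ 2 + b' * x + c')) =
          ∑ x : ZMod p, W2A_q ((a' * x ^ 2 + b' * x + c') * (a * x ^ 2 + b * x + c)) := by
        refine sum_congr rfl fun x _ => ?_
        rw [mul_comm]
      rw [h3]
      linarith
    · rcases hCPQ p hp a b c a' b' c' hD hD' hκ with hc | ⟨α, h2, h3⟩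
      · exact W2A_cop hRRW p hp a b c a' b' c' hD hD' hc
      · have := W2A_root hQD1 p hp a b c a' b' c' α hD hD' hκ h2 h3
        linarith

end Pool.Agent.OT
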