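import Mathlib
import Pool.Agent.helper64.OT.SpecG

/-!
# Project OT, row D1S: the second moment bound for a set of frequencies
-/

set_option autoImplicit false

namespace Pool.Agent.OG

open Finset Pool.Agent.OT Pool.Agent.SPI Pool.Agent.helper85.PG
open scoped Pointwise

theorem D1S_ps_norm {p : ℕ} [NeZero p] (t : ZMod p) : ‖ps t‖ = 1 := by
  unfold ps
  exact AddChar.norm_apply _ _

theorem D1S_ps_add {p : ℕ} [NeZero p] (t u : ZMod p) : ps (t + u) = ps t * ps u := by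
  unfold ps
  exact AddChar.map_add_eq_mul _ _ _

theorem D1S_ps_neg {p : ℕ} [NeZero p] (t : ZMod p) : ‖ps (-t) - 1‖ = ‖ps t - 1‖ := by
  have h1 : ps (-t) * ps t = 1 := by
    rw [← D1S_ps_add, neg_add_cancel]
    unfold ps
    exact AddChar.map_zero_eq_one _
  have h2 : ps (-t) - 1 = -(ps (-t) * (ps t - 1)) := by
    rw [mul_sub, h1]
    ring
  rw [h2, norm_neg, norm_mul, D1S_ps_norm, one_mul]

/-- the error function -/
noncomputable def D1S_w {p : ℕ} [NeZero p] (cl : ZMod p → ZMod p) (β : ZMod p → ℂ) (s b : ZMod p) : ℂ :=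
  β b * ps (-(s * cl b)) * (ps (-(s * (b - cl b))) - 1)

theorem D1S_dec {p : ℕ} [Fact p.Prime] (χ : MulChar (ZMod p) ℂ) (S J : Finset (ZMod p))
    (cl : ZMod p → ZMod p) (B : Finset (ZMod p)) (β : ZMod p → ℂ) (hJ : ∀ b ∈ B, cl b ∈ J) (t : ZMod p) :
    ∑ s ∈ S, χ⁻¹ (t - s) * ft B β (t - s) =
      GT χ S J cl B β t + ∑ s ∈ S, χ⁻¹ (t - s) * ft B (D1S_w cl β s) t := by
  have hG : GT χ S J cl B β t = ∑ s ∈ S, χ⁻¹ (t - s) * ∑ b ∈ B, ps (-(s * cl b)) * (β b * ps (t * b)) := by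
    unfold GT
    have h1 : ∀ y ∈ J, (∑ s ∈ S, χ⁻¹ (t - s) * ps (-(s * y))) * ft (BY B cl y) β t =
        ∑ b ∈ B.filter (fun b => cl b = y), ∑ s ∈ S, χ⁻¹ (t - s) * (ps (-(s * cl b)) * (β b * ps (t * b))) := by
      intro y _
      unfold BY ft
      rw [mul_sum]
      refine sum_congr rfl fun b hb => ?_
      rw [mem_filter] at hb
      rw [sum_mul]
      refine sum_congr rfl fun s _ => ?_
      rw [hb.2]
      unfold ps
      ring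
    rw [sum_congr rfl h1, sum_fiberwise_of_maps_to hJ, sum_comm]
    refine sum_congr rfl fun s _ => ?_
    rw [mul_sum]
  rw [hG, ← sum_add_distrib]
  refine sum_congr rfl fun s _ => ?_
  rw [← mul_add]
  congr 1
  unfold ft
  rw [← sum_add_distrib]
  refine sum_congr rfl fun b _ => ?_
  have h1 : (ZMod.stdAddChar ((t - s) * b) : ℂ) = ps (t * b) * (ps (-(s * cl b)) * ps (-(s * (b - cl b)))) := by
    rw [← D1S_ps_add, ← D1S_ps_add]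
    unfold ps
    congr 1
    ring
  have h2 : (ZMod.stdAddChar (t * b) : ℂ) = ps (t * b) := rfl
  rw [h1, h2]
  unfold D1S_w
  ring

theorem D1S_err (hPLN : Pool.Agent.SPI.PLN_stmt) {p : ℕ} [Fact p.Prime] (χ : MulChar (ZMod p) ℂ)
    (S : Finset (ZMod p)) (cl : ZMod p → ZMod p) (B : Finset (ZMod p)) (β : ZMod p → ℂ) (ρ : ℝ)
    (hβ : ∀ b, ‖β b‖ ≤ 1) (hρ : 0 ≤ ρ) (hs : ∀ b ∈ B, ∀ s ∈ S, ‖ps (s * (b - cl b)) - 1‖ ≤ ρ) :
    ∑ t : ZMod p, ‖∑ s ∈ S, χ⁻¹ (t - s) * ft B (D1S_w cl β s) t‖ ^ 2 ≤ (S.card : ℝ) ^ 2 * (ρ ^ 2 * p * B.card) := by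
  have h1 : ∀ t : ZMod p, ‖∑ s ∈ S, χ⁻¹ (t - s) * ft B (D1S_w cl β s) t‖ ^ 2 ≤
      (S.card : ℝ) * ∑ s ∈ S, ‖ft B (D1S_w cl β s) t‖ ^ 2 := by
    intro t
    have h2 : ‖∑ s ∈ S, χ⁻¹ (t - s) * ft B (D1S_w cl β s) t‖ ≤ ∑ s ∈ S, ‖ft B (D1S_w cl β s) t‖ := by
      refine (norm_sum_le _ _).trans (sum_le_sum fun s _ => ?_)
      rw [norm_mul]
      have h3 : ‖χ⁻¹ (t - s)‖ ≤ 1 := DirichletCharacter.norm_le_one χ⁻¹ (t - s)
      have h4 := norm_nonneg (ft B (D1S_w cl β s) t)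
      nlinarith
    have h5 : (∑ s ∈ S, ‖ft B (D1S_w cl β s) t‖) ^ 2 ≤ (S.card : ℝ) * ∑ s ∈ S, ‖ft B (D1S_w cl β s) t‖ ^ 2 :=
      sq_sum_le_card_mul_sum_sq
    exact (pow_le_pow_left₀ (norm_nonneg _) h2 2).trans h5
  refine (sum_le_sum fun t _ => h1 t).trans ?_
  rw [← mul_sum, sum_comm, pow_two, mul_assoc]
  refine mul_le_mul_of_nonneg_left ?_ (Nat.cast_nonneg _)
  have h6 : ∀ s ∈ S, ∑ t : ZMod p, ‖ft B (D1S_w cl β s) t‖ ^ 2 ≤ ρ ^ 2 * p * B.card := by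
    intro s hsS
    rw [hPLN p B (D1S_w cl β s)]
    have h7 : ∀ b ∈ B, ‖D1S_w cl β s b‖ ^ 2 ≤ ρ ^ 2 := by
      intro b hb
      refine pow_le_pow_left₀ (norm_nonneg _) ?_ 2
      unfold D1S_w
      rw [norm_mul, norm_mul, D1S_ps_norm, D1S_ps_neg, mul_one]
      have h8 := hs b hb s hsS
      have h9 := norm_nonneg (ps (s * (b - cl b)) - 1)
      nlinarith [hβ b, norm_nonneg (β b)]
    have h10 : ∑ b ∈ B, ‖D1S_w cl β s b‖ ^ 2 ≤ B.card * ρ ^ 2 := by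
      refine (sum_le_sum h7).trans (le_of_eq ?_)
      rw [sum_const, nsmul_eq_mul]
    have hp : (0 : ℝ) ≤ p := Nat.cast_nonneg _
    calc (p : ℝ) * ∑ b ∈ B, ‖D1S_w cl β s b‖ ^ 2 ≤ p * (B.card * ρ ^ 2) := mul_le_mul_of_nonneg_left h10 hp
      _ = ρ ^ 2 * p * B.card := by ring
  refine (sum_le_sum h6).trans (le_of_eq ?_)
  rw [sum_const, nsmul_eq_mul]

theorem D1S_WY (hLST : LST_stmt) {p : ℕ} [Fact p.Prime] (S J V : Finset (ZMod p)) (D : ℝ)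
    (hV : V.Nonempty) (hS : S.Nonempty) (hD : 0 ≤ D)
    (hd : ∀ y ∈ J, ∀ y' ∈ J, ∀ v ∈ V, ∀ v' ∈ V, y + v = y' + v' → y = y')
    (hr : ∀ r ∈ S - S, (V.card : ℝ) ≤ 2 * ‖∑ v ∈ V, ps (r * v)‖) (hSS : ((S - S).card : ℝ) ≤ D * S.card) :
    ∑ s ∈ S, ∑ s' ∈ S, ‖WY J (s' - s)‖ ≤
      (S.card : ℝ) * (2 * (S.card * Real.sqrt (D * p * J.card / (V.card * S.card)))) := by
  have hLS := hLST p J V (S - S) hV hd hr
  have h1 : ∀ s ∈ S, ∑ s' ∈ S, ‖WY J (s' - s)‖ ≤ ∑ r ∈ S - S, ‖WY J r‖ := by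
    intro s hs
    have h2 : ∑ s' ∈ S, ‖WY J (s' - s)‖ = ∑ r ∈ S.image (fun s' => s' - s), ‖WY J r‖ := by
      rw [sum_image]
      intro a _ b _ hab
      exact sub_left_injective hab
    rw [h2]
    refine sum_le_sum_of_subset_of_nonneg ?_ fun _ _ _ => norm_nonneg _
    intro r hr
    obtain ⟨s', hs', rfl⟩ := mem_image.mp hr
    exact sub_mem_sub hs' hs
  have hS0 : (0 : ℝ) < S.card := by exact_mod_cast hS.card_pos
  have hV0 : (0 : ℝ) < V.card := by exact_mod_cast hV.card_pos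
  have hp0 : (0 : ℝ) ≤ p := Nat.cast_nonneg _
  have hJ0 : (0 : ℝ) ≤ J.card := Nat.cast_nonneg _
  have h3 : ∑ r ∈ S - S, ‖WY J r‖ ≤ 2 * (S.card * Real.sqrt (D * p * J.card / (V.card * S.card))) := by
    have h4 : (∑ r ∈ S - S, ‖WY J r‖) ^ 2 ≤ ((S - S).card : ℝ) * ∑ r ∈ S - S, ‖WY J r‖ ^ 2 :=
      sq_sum_le_card_mul_sum_sq
    have h5 : ((S - S).card : ℝ) * ∑ r ∈ S - S, ‖WY J r‖ ^ 2 ≤ D * S.card * (4 * p * J.card / V.card) := by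
      refine mul_le_mul hSS hLS (sum_nonneg fun _ _ => sq_nonneg _) (by positivity)
    have h6 : D * S.card * (4 * p * J.card / V.card) =
        (2 * (S.card * Real.sqrt (D * p * J.card / (V.card * S.card)))) ^ 2 := by
      rw [mul_pow, mul_pow, Real.sq_sqrt (by positivity)]
      field_simp
      ring
    have h7 : (∑ r ∈ S - S, ‖WY J r‖) ^ 2 ≤
        (2 * (S.card * Real.sqrt (D * p * J.card / (V.card * S.card)))) ^ 2 := by
      rw [← h6]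
      exact h4.trans h5
    exact le_of_sq_le_sq h7 (by positivity)
  refine (sum_le_sum fun s hs => (h1 s hs).trans h3).trans (le_of_eq ?_)
  rw [sum_const, nsmul_eq_mul]

theorem D1S (hPGT : PGT_stmt) (hLST : LST_stmt) (hGNT : GNT_stmt) (hPLN : Pool.Agent.SPI.PLN_stmt) : D1S_stmt := by
  intro p _ χ S H J V cl B β D ρ hχ hβ hS hV hD hρ hH hJ hs hd hr hSS
  have hS0 : (0 : ℝ) < S.card := by exact_mod_cast hS.card_pos
  have hp0 : (0 : ℝ) ≤ p := Nat.cast_nonneg _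
  have hps : ∀ x : ZMod p, 0 ≤ psS S x := by
    intro x
    unfold psS
    positivity
  obtain ⟨Q, hQ⟩ : ∃ Q : ℝ, Q = ∑ y ∈ J, ((BY B cl y).card : ℝ) ^ 2 := ⟨_, rfl⟩
  have hQ0 : 0 ≤ Q := by
    rw [hQ]
    exact sum_nonneg fun _ _ => sq_nonneg _
  obtain ⟨G, hG⟩ : ∃ G : ℝ, G = ∑ t : ZMod p, ‖GT χ S J cl B β t‖ ^ 2 := ⟨_, rfl⟩
  have h1 : ∑ x ∈ H, ‖FB χ B β x‖ ^ 2 ≤ 2 * ∑ x : ZMod p, psS S x * ‖FB χ B β x‖ ^ 2 := by
    rw [mul_sum]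
    have h2 : ∑ x ∈ H, ‖FB χ B β x‖ ^ 2 ≤ ∑ x ∈ H, 2 * (psS S x * ‖FB χ B β x‖ ^ 2) := by
      refine sum_le_sum fun x hx => ?_
      have h3 := hH x hx
      nlinarith [sq_nonneg ‖FB χ B β x‖]
    refine h2.trans (sum_le_sum_of_subset_of_nonneg (subset_univ _) fun x _ _ => ?_)
    have h4 := hps x
    positivity
  have h5 := hPGT p χ S B β hχ hS
  have h6 : ∑ t : ZMod p, ‖∑ s ∈ S, χ⁻¹ (t - s) * ft B β (t - s)‖ ^ 2 ≤
      2 * G + 2 * ((S.card : ℝ) ^ 2 * (ρ ^ 2 * p * B.card)) := by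
    have h7 : ∀ t : ZMod p, ‖∑ s ∈ S, χ⁻¹ (t - s) * ft B β (t - s)‖ ^ 2 ≤
        2 * ‖GT χ S J cl B β t‖ ^ 2 + 2 * ‖∑ s ∈ S, χ⁻¹ (t - s) * ft B (D1S_w cl β s) t‖ ^ 2 := by
      intro t
      rw [D1S_dec χ S J cl B β hJ t]
      have h8 := norm_add_le (GT χ S J cl B β t) (∑ s ∈ S, χ⁻¹ (t - s) * ft B (D1S_w cl β s) t)
      have h9 := norm_nonneg (GT χ S J cl B β t + ∑ s ∈ S, χ⁻¹ (t - s) * ft B (D1S_w cl β s) t)
      nlinarith [sq_nonneg (‖GT χ S J cl B β t‖ - ‖∑ s ∈ S, χ⁻¹ (t - s) * ft B (D1S_w cl β s) t‖),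
        norm_nonneg (GT χ S J cl B β t), norm_nonneg (∑ s ∈ S, χ⁻¹ (t - s) * ft B (D1S_w cl β s) t)]
    refine (sum_le_sum fun t _ => h7 t).trans ?_
    rw [sum_add_distrib, ← mul_sum, ← mul_sum, ← hG]
    have h10 := D1S_err hPLN χ S cl B β ρ hβ hρ hs
    linarith
  have h11 := hGNT p χ S J cl B β hχ hβ hJ
  rw [← hG, ← hQ] at h11
  have h12 := D1S_WY hLST S J V D hV hS hD hd hr hSS
  obtain ⟨R, hR⟩ : ∃ R : ℝ, R = Real.sqrt (D * p * J.card / (V.card * S.card)) := ⟨_, rfl⟩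
  rw [← hR] at h12
  rw [← hR, ← hQ]
  have h13 : G ≤ (S.card : ℝ) * J.card * p * B.card +
      4 * Real.sqrt p * ((S.card : ℝ) * (2 * (S.card * R))) * Q := by
    refine h11.trans ?_
    have h14 : 4 * Real.sqrt p * (∑ s ∈ S, ∑ s' ∈ S, ‖WY J (s' - s)‖) * Q ≤
        4 * Real.sqrt p * ((S.card : ℝ) * (2 * (S.card * R))) * Q := by
      refine mul_le_mul_of_nonneg_right ?_ hQ0
      refine mul_le_mul_of_nonneg_left h12 ?_
      positivity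
    linarith
  rw [h5] at h1
  refine h1.trans ?_
  have h15 : (∑ t : ZMod p, ‖∑ s ∈ S, χ⁻¹ (t - s) * ft B β (t - s)‖ ^ 2) / (S.card : ℝ) ^ 2 ≤
      (2 * ((S.card : ℝ) * J.card * p * B.card +
      4 * Real.sqrt p * ((S.card : ℝ) * (2 * (S.card * R))) * Q) +
        2 * ((S.card : ℝ) ^ 2 * (ρ ^ 2 * p * B.card))) / (S.card : ℝ) ^ 2 := by
    refine div_le_div_of_nonneg_right ?_ (by positivity)
    linarith
  have h16 : 2 * ((2 * ((S.card : ℝ) * J.card * p * B.card +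
      4 * Real.sqrt p * ((S.card : ℝ) * (2 * (S.card * R))) * Q) +
        2 * ((S.card : ℝ) ^ 2 * (ρ ^ 2 * p * B.card))) / (S.card : ℝ) ^ 2) =
      4 * ((p : ℝ) / S.card) * J.card * B.card + 32 * Real.sqrt p * R * Q + 4 * ρ ^ 2 * p * B.card := by
    field_simp
    ring
  rw [← h16]
  linarith

end Pool.Agent.OG
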