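import Pool.Agent.helper64.OT.SpecI

/-!
# Project OT, row ol:HVI: light and heavy cells
-/

set_option autoImplicit false

namespace Pool.Agent.OL

open Finset Pool.Agent.OT Pool.Agent.SPI Pool.Agent.helper85.PG
open scoped Pointwise

theorem HVI : HVI_stmt := by
  classical
  intro p _ h m B _
  refine ⟨B.filter fun b => (cell h B (b.val / h)).card ≤ m, B.filter fun b => ¬ (cell h B (b.val / h)).card ≤ m,
    filter_subset _ _, filter_subset _ _, ?_, ?_, ?_⟩
  · intro f
    exact (sum_filter_add_sum_filter_not B _ f).symm
  · intro j hj
    unfold cells at hj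
    obtain ⟨b, hb, rfl⟩ := mem_image.mp hj
    refine le_trans (card_le_card ?_) (mem_filter.mp hb).2
    unfold cell
    exact filter_subset_filter _ (filter_subset _ _)
  · have h1 : ∀ j ∈ cells h (B.filter fun b => ¬ (cell h B (b.val / h)).card ≤ m), m ≤ (cell h B j).card := by
      intro j hj
      unfold cells at hj
      obtain ⟨b, hb, rfl⟩ := mem_image.mp hj
      have h2 := (mem_filter.mp hb).2
      omega
    have h3 : ∑ j ∈ cells h (B.filter fun b => ¬ (cell h B (b.val / h)).card ≤ m), (cell h B j).card ≤ B.card := by
      unfold cell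
      rw [sum_card_fiberwise_eq_card_filter]
      exact card_filter_le _ _
    have h4 := (sum_le_sum h1).trans h3
    rw [sum_const, smul_eq_mul, mul_comm] at h4
    exact h4

end Pool.Agent.OL
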