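import Pool.Agent.helper35.OT.Spec

set_option autoImplicit false

namespace Pool.Agent.helper35.OT

open Finset Filter

/-- the lowest term dominates near zero -/
theorem SMV_key (F : ℕ → ℝ) (ρ : ℝ) (M : ℕ) (hρ0 : 0 < ρ) (hs : Summable fun m => |F m| * ρ ^ m)
    (hmin : ∀ m < M, F m = 0) (x : ℝ) (hx0 : 0 < x) (hx : x ≤ ρ) :
    |(∑' m, F m * x ^ m) - F M * x ^ M| ≤ (∑' m, |F m| * ρ ^ m) * (x / ρ) ^ (M + 1) := by
  have hsx : Summable fun m => F m * x ^ m := by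
    refine Summable.of_norm_bounded hs ?_
    intro m
    rw [norm_mul, norm_pow, Real.norm_eq_abs, Real.norm_of_nonneg hx0.le]
    exact mul_le_mul_of_nonneg_left (pow_le_pow_left₀ hx0.le hx m) (abs_nonneg _)
  rw [hsx.tsum_eq_add_tsum_ite M, add_sub_cancel_left, ← Real.norm_eq_abs]
  refine tsum_of_norm_bounded (hs.hasSum.mul_right ((x / ρ) ^ (M + 1))) ?_
  intro m
  have hq0 : 0 ≤ x / ρ := (div_pos hx0 hρ0).le
  have hq1 : x / ρ ≤ 1 := (div_le_one hρ0).mpr hx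
  have hnn : 0 ≤ |F m| * ρ ^ m * (x / ρ) ^ (M + 1) := by positivity
  by_cases hm : m = M
  · rw [if_pos hm, norm_zero]
    exact hnn
  · rw [if_neg hm]
    rcases Nat.lt_or_ge m M with h | h
    · rw [hmin m h, zero_mul, norm_zero, abs_zero, zero_mul, zero_mul]
    · have h1 : M + 1 ≤ m := by omega
      rw [norm_mul, norm_pow, Real.norm_eq_abs, Real.norm_of_nonneg hx0.le, mul_assoc]
      refine mul_le_mul_of_nonneg_left ?_ (abs_nonneg _)
      have h2 : x ^ m = ρ ^ m * (x / ρ) ^ m := by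
        rw [← mul_pow, mul_div_cancel₀ x hρ0.ne']
      rw [h2]
      exact mul_le_mul_of_nonneg_left (pow_le_pow_of_le_one hq0 hq1 h1) (pow_pos hρ0 m).le

theorem SMV (hEVL : EVL_stmt) (hPOL : POL_stmt) : SMV_stmt := by
  intro a ρ k K e hρ0 hρ1 hsum hF hK
  have hco : ∀ n, PowerSeries.coeff n (gs a) = (a n : ℚ) := by
    intro n
    unfold gs
    exact PowerSeries.coeff_mk _ _
  have hsg : Summable fun n => |((PowerSeries.coeff n (gs a) : ℚ) : ℝ)| * ρ ^ n := by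
    have h1 : (fun n => |((PowerSeries.coeff n (gs a) : ℚ) : ℝ)| * ρ ^ n) =
        fun n => |(a n : ℝ)| * ρ ^ n := by
      funext n
      rw [hco, Rat.cast_intCast]
    rw [h1]
    exact hsum
  obtain ⟨hs1, hs2⟩ := hEVL (pol k e) (gs a) ρ hρ0 hsg
  generalize ev (pol k e) (gs a) = F at hF hK hs1 hs2
  have hval : ∀ x : ℝ, 0 < x → x ≤ ρ → val k e x (∑' m, (a m : ℝ) * x ^ m) =
      ∑' m, ((PowerSeries.coeff m F : ℚ) : ℝ) * x ^ m := by
    intro x hx0 hx
    have h1 := hs2 (x : ℂ) (by rw [Complex.norm_real, Real.norm_of_nonneg hx0.le]; exact hx)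
    have h2 : sv (gs a) (x : ℂ) = ((∑' m, (a m : ℝ) * x ^ m : ℝ) : ℂ) := by
      unfold sv
      rw [Complex.ofReal_tsum]
      refine tsum_congr fun n => ?_
      rw [hco]
      push_cast
      rfl
    have h3 : sv F (x : ℂ) =
        ((∑' m, ((PowerSeries.coeff m F : ℚ) : ℝ) * x ^ m : ℝ) : ℂ) := by
      unfold sv
      rw [Complex.ofReal_tsum]
      refine tsum_congr fun n => ?_
      push_cast
      rfl
    rw [h2, hPOL.2 k e x, h3] at h1
    exact (Complex.ofReal_inj.mp h1).symm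
  have hex : ∃ m, PowerSeries.coeff m F ≠ 0 := by
    by_contra hcon
    apply hF
    ext m
    by_contra hm
    exact hcon ⟨m, by simpa using hm⟩
  obtain ⟨M, hM, hmin⟩ : ∃ M, PowerSeries.coeff M F ≠ 0 ∧ ∀ m < M, PowerSeries.coeff m F = 0 := by
    classical
    refine ⟨Nat.find hex, Nat.find_spec hex, fun m hm => ?_⟩
    by_contra h
    exact Nat.find_min hex hm h
  have hKM : K ≤ M := by
    by_contra h
    exact hM (hK M (by omega))
  have hM' : ((PowerSeries.coeff M F : ℚ) : ℝ) ≠ 0 := by exact_mod_cast hM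
  have hpos : 0 < |((PowerSeries.coeff M F : ℚ) : ℝ)| := abs_pos.mpr hM'
  have hS0 : 0 ≤ ∑' m, |((PowerSeries.coeff m F : ℚ) : ℝ)| * ρ ^ m :=
    tsum_nonneg fun m => mul_nonneg (abs_nonneg _) (pow_pos hρ0 m).le
  have hkey := SMV_key (fun m => ((PowerSeries.coeff m F : ℚ) : ℝ)) ρ M hρ0 hs1
    (fun m hm => by simp only [hmin m hm, Rat.cast_zero])
  generalize (∑' m, |((PowerSeries.coeff m F : ℚ) : ℝ)| * ρ ^ m) = S at hS0 hkey
  have hlim : Tendsto (fun n : ℕ => ρ ^ 2 ^ n) atTop (nhds 0) :=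
    (tendsto_pow_atTop_nhds_zero_of_lt_one hρ0.le hρ1).comp
      (tendsto_pow_atTop_atTop_of_one_lt (by norm_num))
  have hlim2 : Tendsto (fun n : ℕ => S * (ρ ^ 2 ^ n / ρ ^ (M + 1))) atTop (nhds 0) := by
    have h := (hlim.div_const (ρ ^ (M + 1))).const_mul S
    rw [zero_div, mul_zero] at h
    exact h
  have hev := (tendsto_order.mp hlim2).2 _ hpos
  rw [eventually_atTop] at hev
  obtain ⟨n0, hn0⟩ := hev
  refine ⟨2 * |((PowerSeries.coeff M F : ℚ) : ℝ)|, by positivity, n0, fun n hn => ?_⟩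
  have hx0 : 0 < ρ ^ 2 ^ n := pow_pos hρ0 _
  have hx : ρ ^ 2 ^ n ≤ ρ := by
    have h := pow_le_pow_of_le_one hρ0.le hρ1.le (Nat.one_le_two_pow (n := n))
    rwa [pow_one] at h
  have hx1 : ρ ^ 2 ^ n ≤ 1 := hx.trans hρ1.le
  have h1 := hkey (ρ ^ 2 ^ n) hx0 hx
  have h2 := hn0 n hn
  rw [hval _ hx0 hx]
  generalize ρ ^ 2 ^ n = x at hx0 hx hx1 h1 h2
  generalize (∑' m, ((PowerSeries.coeff m F : ℚ) : ℝ) * x ^ m) = v at h1
  generalize ((PowerSeries.coeff M F : ℚ) : ℝ) = f at hM' hpos h1 h2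
  have hxM : 0 < x ^ M := pow_pos hx0 M
  have h3 : S * (x / ρ) ^ (M + 1) = x ^ M * (S * (x / ρ ^ (M + 1))) := by
    rw [div_pow, pow_succ x M]
    ring
  rw [h3] at h1
  have h4 : x ^ M * (S * (x / ρ ^ (M + 1))) < x ^ M * |f| := mul_lt_mul_of_pos_left h2 hxM
  have h5 : |f * x ^ M| = x ^ M * |f| := by
    rw [abs_mul, abs_of_pos hxM, mul_comm]
  constructor
  · intro hv
    rw [hv, zero_sub, abs_neg, h5] at h1
    linarith
  · have h6 : |v| ≤ |v - f * x ^ M| + |f * x ^ M| := by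
      have h := abs_add_le (v - f * x ^ M) (f * x ^ M)
      rwa [sub_add_cancel] at h
    have h7 : x ^ M ≤ x ^ K := pow_le_pow_of_le_one hx0.le hx1 hKM
    have h8 : x ^ M * |f| ≤ x ^ K * |f| := mul_le_mul_of_nonneg_right h7 hpos.le
    rw [h5] at h6
    linarith

end Pool.Agent.helper35.OT
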